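import Pool.Agent.Helper118.Width.Defs2

set_option linter.all false
open Finset Width Filter

namespace Pool.Agent.H208R3.SV

/-- exponential decay beats powers -/
theorem decay_aux (ρ K : ℝ) (hρ : 0 < ρ) (hK : 0 < K) (A : ℝ) (n : ℕ) (M : ℝ) :
    ∃ B1 : ℝ, ∀ B : ℝ, B1 ≤ B →
      A * (((2 * K * B) ^ (2 / ρ)) / 2) ^ n * (1.01 * Real.exp (-(B / 4)) * B) * M ≤ 1 := by
  have h1 : Tendsto (fun B : ℝ => B ^ (2 / ρ * n + 1) * Real.exp (-(1/4) * B)) atTop (nhds 0) :=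
    tendsto_rpow_mul_exp_neg_mul_atTop_nhds_zero _ _ (by norm_num)
  have h2 : Tendsto (fun B : ℝ => (A * (((2 * K) ^ (2 / ρ)) / 2) ^ n * 1.01 * M) *
      (B ^ (2 / ρ * n + 1) * Real.exp (-(1/4) * B))) atTop (nhds 0) := by
    have := h1.const_mul (A * (((2 * K) ^ (2 / ρ)) / 2) ^ n * 1.01 * M)
    rwa [mul_zero] at this
  have h3 := (h2.eventually (ge_mem_nhds (show (0:ℝ) < 1 by norm_num))).and (eventually_gt_atTop 0)
  obtain ⟨B1, hB1⟩ := eventually_atTop.1 h3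
  refine ⟨B1, fun B hB => ?_⟩
  obtain ⟨h4, hB0⟩ := hB1 B hB
  refine le_trans (le_of_eq ?_) h4
  have e1 : (2 * K * B) ^ (2 / ρ) = (2 * K) ^ (2 / ρ) * B ^ (2 / ρ) :=
    Real.mul_rpow (by positivity) hB0.le
  have e2 : B ^ (2 / ρ * n + 1) = (B ^ (2 / ρ)) ^ n * B := by
    rw [Real.rpow_add hB0, Real.rpow_one, Real.rpow_mul hB0.le, Real.rpow_natCast]
  rw [e1, e2, show (-(1/4) * B : ℝ) = -(B / 4) by ring]
  have e3 : ((2 * K) ^ (2 / ρ) * B ^ (2 / ρ) / 2) ^ n =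
      (((2 * K) ^ (2 / ρ)) / 2) ^ n * (B ^ (2 / ρ)) ^ n := by
    rw [← mul_pow]
    congr 1
    ring
  rw [e3]
  ring

theorem natDegree_Qp2_le (P : Polynomial ℂ) (R B : ℝ) (m g g0 : ℕ) (c : ℕ → ℂ) (e : ℂ) (T τ : ℝ)
    (J : ℕ) : (Qp2 P R B m g g0 c e T τ J).natDegree ≤ P.natDegree + g0 + J * g + m := by
  unfold Qp2
  refine (Polynomial.natDegree_add_le _ _).trans (max_le (by omega) ?_)
  refine Polynomial.natDegree_sum_le_of_forall_le _ _ fun j hj => ?_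
  have hj' : j ≤ J := Nat.lt_succ_iff.mp (Finset.mem_range.mp hj)
  have h1 : j * g ≤ J * g := Nat.mul_le_mul_right g hj'
  refine (Polynomial.natDegree_mul_le).trans ?_
  have h2 : (Polynomial.C (bj2 P.leadingCoeff R B g g0 e T τ j) *
      Polynomial.X ^ (P.natDegree + g0 + j * g)).natDegree ≤ P.natDegree + g0 + j * g :=
    Polynomial.natDegree_C_mul_X_pow_le _ _
  have h3 : (∑ k ∈ range (m+1), Polynomial.C (c k / ((rj2 R B T τ j : ℝ) : ℂ)^k) *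
      Polynomial.X ^ k : Polynomial ℂ).natDegree ≤ m := by
    refine Polynomial.natDegree_sum_le_of_forall_le _ _ fun k hk => ?_
    exact (Polynomial.natDegree_C_mul_X_pow_le _ _).trans
      (Nat.lt_succ_iff.mp (Finset.mem_range.mp hk))
  omega

theorem degree_aux {ρ K B R : ℝ} (hρ : 0 < ρ) (hK : 0 < K) (hB : 100 ≤ B) (hR0 : 0 < R)
    (hR : R ^ (ρ/2) = 2 * K * B) (hBK : (1 / (2 * K))^2 ≤ B) {n g0 g m J d : ℕ}
    (hn : (n : ℝ) ≤ B) (hg0 : (g0 : ℝ) ≤ B) (hg : (g : ℝ) ≤ B^2) (hm : (m : ℝ) ≤ B)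
    (hJ : (J : ℝ) ≤ B) (hd : d ≤ n + g0 + J * g + m) : (d : ℝ) ≤ R ^ (4 * ρ) := by
  have hB0 : 0 < B := by linarith
  have h1 : (d : ℝ) ≤ B^4 := by
    have h2 : (d : ℝ) ≤ n + g0 + J * g + m := by exact_mod_cast hd
    have h3 : (J : ℝ) * g ≤ B * B^2 := mul_le_mul hJ hg (Nat.cast_nonneg _) hB0.le
    have h4 : B * B^2 = B^3 := by ring
    have h5 : B^4 = B * B^3 := by ring
    have h6 : B ≤ B^3 := by nlinarith [sq_nonneg B, mul_pos hB0 hB0]
    have h7 : 100 * B^3 ≤ B * B^3 := mul_le_mul_of_nonneg_right hB (by positivity)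
    rw [h5]
    nlinarith
  have h2 : B ≤ R ^ ρ := by
    have h3 : R ^ ρ = (2 * K * B)^2 := by
      rw [← hR, ← Real.rpow_natCast (R ^ (ρ/2)) 2, ← Real.rpow_mul hR0.le]
      congr 1; push_cast; ring
    rw [h3]
    have h4 : 1 ≤ (2 * K)^2 * B := by
      have h5 : (2 * K)^2 * (1 / (2 * K))^2 = 1 := by
        rw [← mul_pow]
        rw [mul_one_div_cancel (by positivity), one_pow]
      have h6 : (2 * K)^2 * (1 / (2 * K))^2 ≤ (2 * K)^2 * B :=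
        mul_le_mul_of_nonneg_left hBK (by positivity)
      linarith
    have h7 : (2 * K * B)^2 = ((2 * K)^2 * B) * B := by ring
    rw [h7]
    nlinarith
  refine h1.trans ?_
  have h3 : R ^ (4 * ρ) = (R ^ ρ)^4 := by
    rw [← Real.rpow_natCast (R ^ ρ) 4, ← Real.rpow_mul hR0.le]
    congr 1; push_cast; ring
  rw [h3]
  exact pow_le_pow_left₀ hB0.le h2 4

end Pool.Agent.H208R3.SV
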