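import Pool.Agent.Helper118.Width.LFmk
import Pool.Agent.Helper118.Width.X3
import Pool.Agent.Helper118.Width.S1
import Pool.Agent.Helper118.Width.S2
import Pool.Agent.Helper118.Width.C1
import Pool.Agent.Helper118.Width.M1a
import Pool.Agent.Helper118.Width.M1b
import Pool.Agent.Helper118.Width.M1c
import Pool.Agent.Helper118.Width.L0
import Pool.Agent.Helper118.Width.P1
import Pool.Agent.Helper118.Width.P2
import Pool.Agent.Helper118.Width.P3

set_option linter.all false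
open Finset

open Width

namespace Pool.Agent.H208R3.SV

/-- Existence of the local data with arbitrarily large `B`, with polynomial bounds for the integer
parameters. -/
theorem exists_LF' (B0 : ℝ) : ∃ (B : ℝ) (m g g0 : ℕ) (c : ℕ → ℂ) (e : ℂ) (T τ ξ u M a : ℝ),
    B0 ≤ B ∧ LF B m g g0 c e T τ ξ u M a ∧ (g : ℝ) ≤ B^2 ∧ (g0 : ℝ) ≤ B ∧ (m : ℝ) ≤ B := by
  obtain ⟨k, hk0, hk⟩ := P1.exists_big ⌈B0⌉₊
  obtain ⟨hL, hkL⟩ := id hk
  set L := Real.log k with hLdef
  set x : ℝ := (k:ℝ) with hx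
  have hL0 : 0 < L := by linarith
  have hL1 : 1 ≤ L := by linarith
  have hLx : L ≤ x / 10^12 := by
    have h1 : L ≤ L^3 := by
      calc L = L^1 := (pow_one L).symm
        _ ≤ L^3 := pow_le_pow_right₀ hL1 (by norm_num)
    rw [le_div_iff₀ (by norm_num)]
    linarith
  have hx15 : (10:ℝ)^15 ≤ x := by
    have : (1000:ℝ)^3 ≤ L^3 := pow_le_pow_left₀ (by norm_num) hL 3
    nlinarith
  have hx1 : 1 ≤ x := by linarith [show (1:ℝ) ≤ 10^15 by norm_num]
  have hx0 : 0 < x := by linarith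
  have hB0x : B0 ≤ x := (Nat.le_ceil B0).trans (by rw [hx]; exact_mod_cast hk0)
  set φ : ℝ := x^4 with hφdef
  set T : ℝ := 800*x^4*L with hTdef
  have hφ : 1000 ≤ φ := by
    have : x ≤ x^4 := by
      calc x = x^1 := (pow_one x).symm
        _ ≤ x^4 := pow_le_pow_right₀ hx1 (by norm_num)
    linarith [show (1000:ℝ) ≤ 10^15 by norm_num]
  have hφ0 : 0 < φ := by linarith
  have hT : 800*φ ≤ T := by
    rw [hTdef, ← hφdef]; nlinarith
  have hp : 100*φ ≤ ((3*k^10 : ℕ) : ℝ) := by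
    push_cast
    rw [hφdef, ← hx]
    have : x^4 * 100 ≤ x^4 * (3 * x^6) := by
      apply mul_le_mul_of_nonneg_left _ (by positivity)
      have : x ≤ x^6 := by
        calc x = x^1 := (pow_one x).symm
          _ ≤ x^6 := pow_le_pow_right₀ hx1 (by norm_num)
      linarith [show (100:ℝ) ≤ 10^15 by norm_num]
    nlinarith
  obtain ⟨p', xb, u, hp1, hp2, hxb, hu, h1, h2, h3, h4, h5⟩ := S1.shape_real (3*k^10) φ T hφ hT hp
  have hpφ : (((3*k^10 : ℕ) : ℝ)) / φ = 3 * x^6 := by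
    push_cast
    rw [hφdef, ← hx]
    field_simp
  have hpφ2 : 1.01 * (((3*k^10 : ℕ) : ℝ)) / φ = 1.01 * 3 * x^6 := by
    rw [mul_div_assoc, hpφ]; ring
  rw [hpφ] at h4
  rw [hpφ2] at h5
  set B : ℝ := x^150 with hBdef
  have hxB : x ≤ B := by
    calc x = x^1 := (pow_one x).symm
      _ ≤ x^150 := pow_le_pow_right₀ hx1 (by norm_num)
  have hB15 : (10:ℝ)^15 ≤ B := by linarith
  have hBpos : 0 < B := by linarith
  have hinvB : 1 / B ≤ 1/100 := by
    apply one_div_le_one_div_of_le (by norm_num)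
    linarith [show (100:ℝ) ≤ 10^15 by norm_num]
  set Λ := Lr (3*k^10) p' φ T xb with hΛ
  have hΛ0 : 0 ≤ Λ := by
    have : 0 ≤ 3 * x^6 := by positivity
    linarith
  set g : ℕ := ⌈(Λ + 1/2) * B⌉₊ with hgdef
  set ℓ : ℝ := g / B with hℓdef
  have hℓ1 : Λ + 1/2 ≤ ℓ := by
    rw [hℓdef, le_div_iff₀ hBpos]; exact Nat.le_ceil _
  have hℓ2 : ℓ ≤ Λ + 1/2 + 1/B := by
    rw [hℓdef, div_le_iff₀ hBpos]
    have : (g:ℝ) < (Λ + 1/2) * B + 1 := Nat.ceil_lt_add_one (by positivity)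
    have h6 : (Λ + 1/2 + 1/B) * B = (Λ + 1/2) * B + 1 := by field_simp
    linarith
  set g0 : ℕ := ⌈B / 2⌉₊ with hg0def
  set lam : ℝ := g0 / B with hlamdef
  have hlam1 : 1/2 ≤ lam := by
    rw [hlamdef, le_div_iff₀ hBpos]
    have : B/2 ≤ g0 := Nat.le_ceil _
    linarith
  have hlam2 : lam ≤ 1/2 + 1/B := by
    rw [hlamdef, div_le_iff₀ hBpos]
    have : (g0:ℝ) < B/2 + 1 := Nat.ceil_lt_add_one (by positivity)
    have h6 : (1/2 + 1/B) * B = B/2 + 1 := by field_simp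
    linarith
  have hk1 : 1 ≤ k := by
    by_contra h
    have : k = 0 := by omega
    rw [hx, this] at hx1
    norm_num at hx1
  have hk10 : 1 ≤ k^10 := Nat.one_le_pow _ _ hk1
  set N : ℕ := 20*k^10 - 1 with hNdef
  have hN1 : N + 1 = 20*k^10 := by omega
  have hN5 : 5 ≤ N := by omega
  set K₁ : ℕ := 20*k^10 - 2*(3*k^10) - 2*p' with hKdef
  have hK : 2*(3*k^10) + 2*p' + K₁ = 20*k^10 := by omega
  set κ : ℝ := ℓ*(u + T - xb) + Real.log (pir (3*k^10) p' φ T xb) +
      Real.log (pir (3*k^10) p' φ T u) - Real.log (pir (3*k^10) p' φ T (u + T)) with hκdef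
  have hℓ3 : 3*x^6 ≤ ℓ := by linarith
  have hℓ4 : ℓ ≤ 1.01*3*x^6 + 1 := by linarith
  obtain ⟨hκ1, hκ2⟩ := P1.param_kappa k hk p' hp1 hp2 xb u ℓ κ hxb hu hℓ3 hℓ4 hκdef
  obtain ⟨Y, hY1, hY2, hYκ⟩ := P2.param_Y k hk p' hp1 hp2 κ hκ1 hκ2 N K₁ hN1 hK
  have hNr : (N:ℝ) + 1 = 20*x^10 := by
    have : ((N + 1 : ℕ) : ℝ) = ((20*k^10 : ℕ) : ℝ) := by rw [hN1]
    push_cast at this
    exact this
  have hTle : T ≤ x^5 := by
    rw [hTdef]
    have : 800 * x^4 * L ≤ 800 * x^4 * (x / 10^12) := mul_le_mul_of_nonneg_left hLx (by positivity)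
    have h7 : 800 * x^4 * (x / 10^12) ≤ x^5 := by
      have : 0 ≤ x^5 := by positivity
      nlinarith
    linarith
  have hpow : ∀ a b : ℕ, a ≤ b → x^a ≤ x^b := fun a b h => pow_le_pow_right₀ hx1 h
  have hTφW : T + φ ≤ x^12 := by
    have h8 : x^5 + x^4 ≤ x^12 := by
      have e1 : x^5 ≤ x^11 := hpow _ _ (by norm_num)
      have e2 : x^4 ≤ x^11 := hpow _ _ (by norm_num)
      have e3 : 2 * x^11 ≤ x^12 := by
        have : x^12 = x * x^11 := by ring
        rw [this]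
        apply mul_le_mul_of_nonneg_right _ (by positivity)
        linarith [show (2:ℝ) ≤ 10^15 by norm_num]
      linarith
    linarith
  have hWY : 10^6 * ((N:ℝ)+1) * x^12 ≤ Y := by
    rw [hNr]
    have : 10^6 * (20 * x^10) * x^12 ≤ x^26 := by
      have e : x^26 = x^4 * x^22 := by ring
      have e2 : 10^6 * (20 * x^10) * x^12 = (20 * 10^6) * x^22 := by ring
      rw [e, e2]
      apply mul_le_mul_of_nonneg_right _ (by positivity)
      have : x ≤ x^4 := by
        calc x = x^1 := (pow_one x).symm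
          _ ≤ x^4 := hpow _ _ (by norm_num)
      linarith [show (20 * 10^6:ℝ) ≤ 10^15 by norm_num]
    linarith
  have hBc : 4 * (Y + x^12) * (10^6 * (N:ℝ)^6) ≤ B := by
    have hN6 : (N:ℝ)^6 ≤ (20*x^10)^6 := by
      apply pow_le_pow_left₀ (by positivity)
      linarith
    have e1 : x^12 ≤ x^52 := hpow _ _ (by norm_num)
    have e2 : 4 * (Y + x^12) * (10^6 * (N:ℝ)^6) ≤ 4 * (2 * x^52) * (10^6 * (20*x^10)^6) := by
      apply mul_le_mul
      · linarith
      · linarith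
      · positivity
      · positivity
    have e3 : 4 * (2 * x^52) * (10^6 * (20*x^10)^6) = (512 * 10^12) * x^112 := by ring
    have e4 : (512 * 10^12) * x^112 ≤ x^113 := by
      have : x^113 = x * x^112 := by ring
      rw [this]
      apply mul_le_mul_of_nonneg_right _ (by positivity)
      linarith [show (512 * 10^12:ℝ) ≤ 10^15 by norm_num]
    have e5 : x^113 ≤ x^150 := hpow _ _ (by norm_num)
    linarith
  obtain ⟨c, hC⟩ := X3.exists_CF N (3*k^10) p' K₁ hN5 (by omega) B φ T Y (x^12) κ (by linarith)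
    (by linarith) hTφW hWY hBc hYκ
  have hNum := P3.param_Num k hk p' hp1 hp2 xb u hxb hu g g0 N B ℓ lam φ T (x^12) (x^11) (100*L)
    (5*N*(mm N + 1)) κ ((-1)^K₁) ((κ - Real.log (pir (3*k^10) p' φ T (-(x^11)))) / lam)
    ((κ - Real.log (pir (3*k^10) p' φ T (-(x^11)))) / lam + x^11)
    (Complex.I * (((-1)^K₁ * Real.exp (-κ - ℓ*xb) * pir (3*k^10) p' φ T xb : ℝ) : ℂ))
    rfl rfl rfl rfl rfl rfl hN1 rfl rfl rfl hℓ3 hℓ4 hlam1 hlam2 hκdef hκ1 hκ2 rfl rfl rfl
  have ha8 : 100 * L + 1 ≤ φ / 8 := by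
    have e1 : x ≤ x^4 := by
      calc x = x^1 := (pow_one x).symm
        _ ≤ x^4 := hpow _ _ (by norm_num)
    rw [hφdef]
    have : (10:ℝ)^15 = 1000000000000000 := by norm_num
    linarith
  have h1000 : 1000 * ((3*k^10 : ℕ) : ℝ) * (100*L+1)^2 ≤ φ^3 := by
    push_cast
    rw [hφdef, ← hx]
    have e1 : (100*L+1)^2 ≤ (200 * L)^2 := by
      apply pow_le_pow_left₀ (by linarith)
      linarith
    have e2 : 3000 * (200*L)^2 ≤ x^2 := by
      have e3 : (200 * L)^2 ≤ (200 * (x / 10^12))^2 := by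
        apply pow_le_pow_left₀ (by linarith)
        linarith
      have e4 : 3000 * (200 * (x / 10^12))^2 ≤ x^2 := by
        have : 0 ≤ x^2 := by positivity
        nlinarith
      linarith
    have e5 : 1000 * (3 * x^10) * (100*L+1)^2 ≤ x^10 * (3000 * (200*L)^2) := by
      have : 0 ≤ x^10 := by positivity
      nlinarith
    have e6 : x^10 * (3000 * (200*L)^2) ≤ x^10 * x^2 :=
      mul_le_mul_of_nonneg_left e2 (by positivity)
    have e7 : (x^4)^3 = x^10 * x^2 := by ring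
    rw [e7]
    linarith
  have hShape := S2.shape_complex (3*k^10) p' φ T xb u (100*L) ℓ hφ hT hp hp2 hxb hu h1 h2 h3
    (by rw [hpφ]; exact h4) (by linarith) ha8 h1000 hℓ1 (by linarith)
  have hX : CrossingStatement := C1.crossing
  have hM := L0.mod_of hShape hC.hσ hNum (M1a.bef_facts hX hShape) (M1b.rhf_facts hX hShape)
    (M1c.f0f_facts hX (3*k^10) p' φ T lam (x^11) hφ hT hp2 hNum.n8 hNum.n8' hNum.n_lam1
      hNum.n_lam2)
  have hgB : (g : ℝ) ≤ B^2 := by
    have e1 : (g : ℝ) = ℓ * B := by rw [hℓdef]; field_simp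
    have e2 : ℓ ≤ x^7 := by
      have e3 : x^7 = x * x^6 := by ring
      have e4 : 1 ≤ x^6 := one_le_pow₀ hx1
      have e5 : (10:ℝ)^15 * x^6 ≤ x * x^6 := mul_le_mul_of_nonneg_right hx15 (by positivity)
      have e6 : (10:ℝ)^15 = 1000000000000000 := by norm_num
      rw [e6] at e5
      rw [e3]
      linarith
    have e7 : x^7 ≤ B := hpow _ _ (by norm_num)
    rw [e1, sq]
    exact mul_le_mul_of_nonneg_right (e2.trans e7) hBpos.le
  have hg0B : (g0 : ℝ) ≤ B := by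
    have e1 : (g0 : ℝ) = lam * B := by rw [hlamdef]; field_simp
    rw [e1]
    have e2 : lam ≤ 1 := by linarith
    nlinarith
  exact ⟨B, mm N, g, g0, c, _, T, _, _, u, _, _, hB0x.trans hxB, LF_of hShape hC hNum hM,
    hgB, hg0B, hNum.n_mB⟩

end Pool.Agent.H208R3.SV
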