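import Pool.Agent.Helper118.Width.G1
import Pool.Agent.Helper118.Width.G2

set_option linter.all false
open Finset Width

namespace Pool.Agent.H208R3.SV

/-- The stage statement with control of the growth. -/
def Stage3 (ρ K : ℝ) : Prop := ∀ P : Polynomial ℂ, 1 ≤ P.natDegree → GoodR ρ K P → ∀ M0 : ℝ,
  ∃ Q : Polynomial ℂ, P.natDegree < Q.natDegree ∧ GoodR ρ K Q ∧
      (∀ k ≤ P.natDegree, Q.coeff k = P.coeff k) ∧
      (∃ (n : ℕ) (r : ℝ), n ≤ Q.natDegree ∧ M0 ≤ r ∧ 1 ≤ r ∧ r ^ (ρ * (1 + 1/500)) ≤ n ∧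
        1 ≤ ‖Q.coeff n‖ * r^n) ∧
      (0 < M0 → ∑ k ∈ Ioc P.natDegree Q.natDegree, ‖Q.coeff k‖ * M0^k ≤ 1 / M0^2) ∧
      (∃ R : ℝ, 1 ≤ R ∧ 2 * M0 ≤ R ∧ (Q.natDegree : ℝ) ≤ R ^ (4 * ρ) ∧
        (0 < M0 → ∑ k ∈ Ioc P.natDegree Q.natDegree, ‖Q.coeff k‖ * (R/2)^k ≤ 1 / M0^2))

/-- blocks of controlled growth -/
theorem growth_aux (a : ℕ → ℂ) (d : ℕ → ℕ) (Rs : ℕ → ℝ) (ρ : ℝ) (hρ : 0 < ρ) (hd0 : d 0 = 1)
    (hd2 : ∀ i, d i < d (i + 1))
    (ha0 : ‖a 0‖ ≤ 1) (ha1 : ‖a 1‖ ≤ 1) (hR1 : ∀ i, 1 ≤ Rs i)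
    (hdeg : ∀ i, (d (i + 1) : ℝ) ≤ (Rs i) ^ (4 * ρ))
    (hb : ∀ i : ℕ, ∑ k ∈ Ioc (d i) (d (i + 1)), ‖a k‖ * (Rs i / 2) ^ k ≤ 1 / ((i : ℝ) + 1) ^ 2)
    (r : ℝ) (hr : 1 ≤ r) (n : ℕ) :
    ∑ k ∈ range n, ‖a k‖ * r ^ k ≤ 1 + r + 2 * (2 * r) ^ ((2 * r) ^ (4 * ρ)) := by
  obtain ⟨G, hG⟩ : ∃ G : ℝ, G = (2 * r) ^ ((2 * r) ^ (4 * ρ)) := ⟨_, rfl⟩
  rw [← hG]
  have h2r : 1 ≤ 2 * r := by linarith
  have hG1 : 1 ≤ G := by
    rw [hG]
    exact Real.one_le_rpow h2r (Real.rpow_nonneg (by linarith) _)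
  have hblock : ∀ i : ℕ, ∑ k ∈ Ioc (d i) (d (i + 1)), ‖a k‖ * r ^ k ≤ G * (1 / ((i : ℝ) + 1) ^ 2) := by
    intro i
    have hRi := hR1 i
    rcases le_or_gt r (Rs i / 2) with h | h
    · have h1 : ∑ k ∈ Ioc (d i) (d (i + 1)), ‖a k‖ * r ^ k ≤
          ∑ k ∈ Ioc (d i) (d (i + 1)), ‖a k‖ * (Rs i / 2) ^ k :=
        Finset.sum_le_sum fun k _ => mul_le_mul_of_nonneg_left
          (pow_le_pow_left₀ (by linarith) h k) (norm_nonneg _)
      refine (h1.trans (hb i)).trans ?_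
      have : 0 ≤ 1 / ((i : ℝ) + 1) ^ 2 := by positivity
      nlinarith
    · have hq : 1 ≤ 2 * r / Rs i := by
        rw [le_div_iff₀ (by linarith)]; linarith
      have hterm : ∀ k ∈ Ioc (d i) (d (i + 1)), ‖a k‖ * r ^ k ≤
          G * (‖a k‖ * (Rs i / 2) ^ k) := by
        intro k hk
        rw [Finset.mem_Ioc] at hk
        have e1 : r ^ k = (2 * r / Rs i) ^ k * (Rs i / 2) ^ k := by
          rw [← mul_pow]
          congr 1
          field_simp
        have e2 : (2 * r / Rs i) ^ k ≤ G := by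
          calc (2 * r / Rs i) ^ k ≤ (2 * r) ^ k := by
                refine pow_le_pow_left₀ (by linarith) ?_ k
                exact div_le_self (by linarith) hRi
            _ = (2 * r) ^ (k : ℝ) := (Real.rpow_natCast _ _).symm
            _ ≤ (2 * r) ^ ((2 * r) ^ (4 * ρ)) := by
                refine Real.rpow_le_rpow_of_exponent_le h2r ?_
                calc (k : ℝ) ≤ (d (i + 1) : ℝ) := by exact_mod_cast hk.2
                  _ ≤ (Rs i) ^ (4 * ρ) := hdeg i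
                  _ ≤ (2 * r) ^ (4 * ρ) :=
                    Real.rpow_le_rpow (by linarith) (by linarith) (by positivity)
            _ = G := hG.symm
        rw [e1]
        have h3 : 0 ≤ ‖a k‖ * (Rs i / 2) ^ k := by positivity
        calc ‖a k‖ * ((2 * r / Rs i) ^ k * (Rs i / 2) ^ k)
            = (2 * r / Rs i) ^ k * (‖a k‖ * (Rs i / 2) ^ k) := by ring
          _ ≤ G * (‖a k‖ * (Rs i / 2) ^ k) := mul_le_mul_of_nonneg_right e2 h3
      calc ∑ k ∈ Ioc (d i) (d (i + 1)), ‖a k‖ * r ^ k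
          ≤ ∑ k ∈ Ioc (d i) (d (i + 1)), G * (‖a k‖ * (Rs i / 2) ^ k) := Finset.sum_le_sum hterm
        _ = G * ∑ k ∈ Ioc (d i) (d (i + 1)), ‖a k‖ * (Rs i / 2) ^ k := by rw [Finset.mul_sum]
        _ ≤ _ := mul_le_mul_of_nonneg_left (hb i) (by linarith)
  have key : ∀ i, ∑ k ∈ range (d i + 1), ‖a k‖ * r ^ k ≤
      1 + r + G * (2 - 2 / ((i : ℝ) + 1)) := by
    intro i
    induction i with
    | zero =>
      rw [hd0, Finset.sum_range_succ, Finset.sum_range_succ, Finset.sum_range_zero]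
      norm_num
      nlinarith
    | succ i ih =>
      have h1 : Ioc (d i) (d (i + 1)) = Ico (d i + 1) (d (i + 1) + 1) := by
        ext k
        simp only [Finset.mem_Ioc, Finset.mem_Ico]
        omega
      have h2 : ∑ k ∈ range (d (i + 1) + 1), ‖a k‖ * r ^ k
          = ∑ k ∈ range (d i + 1), ‖a k‖ * r ^ k
            + ∑ k ∈ Ioc (d i) (d (i + 1)), ‖a k‖ * r ^ k := by
        rw [h1, Finset.sum_range_add_sum_Ico _ (by have := hd2 i; omega)]
      have h3 := hblock i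
      rw [h2]
      have hi0' : (0 : ℝ) ≤ (i : ℝ) := Nat.cast_nonneg i
      have h4 : 1 / ((i : ℝ) + 1) ^ 2 ≤ 2 / ((i : ℝ) + 1) - 2 / (((i + 1 : ℕ) : ℝ) + 1) := by
        push_cast
        have e1 : 2 / ((i : ℝ) + 1) - 2 / ((i : ℝ) + 1 + 1)
            = 2 / (((i : ℝ) + 1) * ((i : ℝ) + 1 + 1)) := by
          field_simp
          ring
        rw [e1, div_le_div_iff₀ (by positivity) (by positivity)]
        nlinarith
      have h5 := mul_le_mul_of_nonneg_left h4 (show 0 ≤ G by linarith)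
      linarith
  have hdn : n ≤ d n := by
    induction n with
    | zero => omega
    | succ n ih => have := hd2 n; omega
  have h1 : range n ⊆ range (d n + 1) := by
    intro k hk
    rw [Finset.mem_range] at hk ⊢
    omega
  have h2 := Finset.sum_le_sum_of_subset_of_nonneg (f := fun k => ‖a k‖ * r ^ k) h1
    (fun k _ _ => by positivity)
  have h3 := key n
  have h4 : 0 ≤ 2 / ((n : ℝ) + 1) := by positivity
  have h5 : G * (2 - 2 / ((n : ℝ) + 1)) ≤ G * 2 :=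
    mul_le_mul_of_nonneg_left (by linarith) (by linarith)
  linarith

theorem exists_sequence3 (ρ K : ℝ) (hρ : 0 < ρ) (hS : Stage3 ρ K) : ∃ a : ℕ → ℂ,
    (∀ n, 1 ≤ n → ∀ z ∈ Freg ρ K, ∑ k ∈ range (n+1), a k * z^k ≠ 0) ∧
    IsEntireSeries a ∧
    (∀ M0 : ℝ, ∃ (n : ℕ) (r : ℝ), M0 ≤ r ∧ 1 ≤ r ∧ r ^ (ρ * (1 + 1/500)) ≤ n ∧
      1 ≤ ‖a n‖ * r^n) ∧
    (∀ r : ℝ, 1 ≤ r → ∀ n : ℕ,
      ∑ k ∈ range n, ‖a k‖ * r ^ k ≤ 1 + r + 2 * (2 * r) ^ ((2 * r) ^ (4 * ρ))) := by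
  classical
  have hnext : ∀ (T : {P : Polynomial ℂ // 1 ≤ P.natDegree ∧ GoodR ρ K P}) (i : ℕ),
      ∃ T' : {P : Polynomial ℂ // 1 ≤ P.natDegree ∧ GoodR ρ K P},
        T.1.natDegree < T'.1.natDegree ∧ (∀ k ≤ T.1.natDegree, T'.1.coeff k = T.1.coeff k) ∧
        (∃ (n : ℕ) (r : ℝ), n ≤ T'.1.natDegree ∧ (i : ℝ) + 1 ≤ r ∧ 1 ≤ r ∧
          r ^ (ρ * (1 + 1/500)) ≤ n ∧ 1 ≤ ‖T'.1.coeff n‖ * r^n) ∧
        (∑ k ∈ Ioc T.1.natDegree T'.1.natDegree, ‖T'.1.coeff k‖ * ((i : ℝ) + 1) ^ k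
          ≤ 1 / ((i : ℝ) + 1) ^ 2) ∧
        (∃ R : ℝ, 1 ≤ R ∧ (T'.1.natDegree : ℝ) ≤ R ^ (4 * ρ) ∧
          ∑ k ∈ Ioc T.1.natDegree T'.1.natDegree, ‖T'.1.coeff k‖ * (R/2)^k
            ≤ 1 / ((i : ℝ) + 1)^2) := by
    rintro ⟨P, hP1, hP2⟩ i
    obtain ⟨Q, h1, h2, h3, h4, h5, R, h6, h7, h8, h9⟩ := hS P hP1 hP2 ((i : ℝ) + 1)
    exact ⟨⟨Q, by
      have h1' : P.natDegree < Q.natDegree := h1
      omega, h2⟩, h1, h3, h4, h5 (by positivity), R, h6, h8, h9 (by positivity)⟩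
  choose next hn1 hn2 hn3 hn4 hn5 using hnext
  let seq : ℕ → {P : Polynomial ℂ // 1 ≤ P.natDegree ∧ GoodR ρ K P} := fun n =>
    Nat.rec ⟨1 + Polynomial.X, G1.good_start_aux⟩ (fun i T => next T i) n
  have hseq : ∀ i, seq (i + 1) = next (seq i) i := fun i => rfl
  have hseq0 : (seq 0).1 = 1 + Polynomial.X := rfl
  have hdeg : ∀ i, i + 1 ≤ (seq i).1.natDegree := by
    intro i
    induction i with
    | zero => exact (seq 0).2.1
    | succ i ih =>
      have := hn1 (seq i) i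
      rw [hseq]
      omega
  have hcoef : ∀ i j, i ≤ j → ∀ k ≤ (seq i).1.natDegree, (seq j).1.coeff k = (seq i).1.coeff k := by
    intro i j hij
    induction j, hij using Nat.le_induction with
    | base => intro k _; rfl
    | succ j hij ih =>
      intro k hk
      have hd : (seq i).1.natDegree ≤ (seq j).1.natDegree := by
        clear ih
        induction j, hij using Nat.le_induction with
        | base => exact le_rfl
        | succ j hij ih' =>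
          have := hn1 (seq j) j
          rw [hseq]
          omega
      rw [hseq, hn2 (seq j) j k (hk.trans hd), ih k hk]
  have ha : ∀ i k, k ≤ (seq i).1.natDegree → (seq k).1.coeff k = (seq i).1.coeff k := by
    intro i k hk
    rcases le_total i k with h | h
    · exact hcoef i k h k hk
    · have hk' : k ≤ (seq k).1.natDegree := by
        have := hdeg k
        omega
      exact (hcoef k i h k hk').symm
  have hdseq : ∀ i, (seq i).1.natDegree < (seq (i + 1)).1.natDegree := by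
    intro i
    have := hn1 (seq i) i
    rw [← hseq] at this
    exact this
  have hdeg0 : (seq 0).1.natDegree = 1 := by
    rw [hseq0]
    have h : (1 + Polynomial.X : Polynomial ℂ) = Polynomial.X + Polynomial.C 1 := by
      rw [Polynomial.C_1, add_comm]
    rw [h, Polynomial.natDegree_X_add_C]
  refine ⟨fun k => (seq k).1.coeff k, ?_, ?_, ?_, ?_⟩
  · intro n hn z hz1
    have h1 : ∑ k ∈ range (n+1), (seq k).1.coeff k * z^k =
        ∑ k ∈ range (n+1), (seq n).1.coeff k * z^k := by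
      refine Finset.sum_congr rfl fun k hk => ?_
      rw [Finset.mem_range] at hk
      rw [ha n k (by have := hdeg n; omega)]
    rw [h1]
    exact (seq n).2.2 n hn z hz1
  · refine G1.entire_aux _ (fun i => (seq i).1.natDegree) hdeg hdseq ?_
    intro i
    have h1 := hn4 (seq i) i
    rw [← hseq] at h1
    refine le_trans (le_of_eq ?_) h1
    refine Finset.sum_congr rfl fun k hk => ?_
    rw [Finset.mem_Ioc] at hk
    rw [ha (i + 1) k hk.2]
  · intro M0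
    obtain ⟨i, hi⟩ := exists_nat_ge M0
    obtain ⟨n, r, h1, h2, h3, h4, h5⟩ := hn3 (seq i) i
    refine ⟨n, r, by linarith, h3, h4, ?_⟩
    have h6 : (seq n).1.coeff n = (seq (i+1)).1.coeff n := ha (i+1) n h1
    change 1 ≤ ‖(seq n).1.coeff n‖ * r ^ n
    rw [h6]
    exact h5
  · choose Rs hRs1 hRs2 hRs3 using fun i => hn5 (seq i) i
    intro r hr n
    refine growth_aux (fun k => (seq k).1.coeff k) (fun i => (seq i).1.natDegree) Rs ρ hρ hdeg0
      hdseq ?_ ?_ hRs1 ?_ ?_ r hr n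
    · show ‖(seq 0).1.coeff 0‖ ≤ 1
      rw [hseq0]
      simp
    · show ‖(seq 1).1.coeff 1‖ ≤ 1
      rw [ha 0 1 (by rw [hdeg0]), hseq0]
      simp [Polynomial.coeff_one]
    · intro i
      have := hRs2 i
      rw [← hseq] at this
      exact this
    · intro i
      have h1 := hRs3 i
      rw [← hseq] at h1
      refine le_trans (le_of_eq ?_) h1
      refine Finset.sum_congr rfl fun k hk => ?_
      rw [Finset.mem_Ioc] at hk
      show ‖(seq k).1.coeff k‖ * _ = _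
      rw [ha (i + 1) k hk.2]

end Pool.Agent.H208R3.SV
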