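import Pool.Agent.Helper118.Width.G5
import Pool.Agent.H208R3.SV.Help1

set_option linter.all false
open Finset Width Width.G5

namespace Pool.Agent.H208R3.SV

set_option maxHeartbeats 2000000 in
/-- The stage lemma from the existence of `LF` data with arbitrarily large `B`. -/
theorem stage3
    (hstrip : ∀ {B : ℝ} {m g g0 : ℕ} {c : ℕ → ℂ} {e : ℂ} {T τ ξ u M a : ℝ}
      (h : LF B m g g0 c e T τ ξ u M a) (P0 : ℂ → ℂ)
      (hP0 : ∀ t : ℂ, |t.im| ≤ 1 → -a ≤ t.re → ‖P0 t - 1‖ ≤ 1/1000) (J : ℕ) (t : ℂ)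
      (ht : |t.im| ≤ 1) (hta : -a ≤ t.re),
      P0 t + ∑ j ∈ range J, Tj B g g0 e T τ j t * Cx B c m (t - (τ + j * T : ℝ)) ≠ 0 ∧
      ∀ x < m, P0 t + ∑ j ∈ range J, Tj B g g0 e T τ j t * Cx B c m (t - (τ + j * T : ℝ))
        + Tj B g g0 e T τ J t * Cx B c x (t - (τ + J * T : ℝ)) ≠ 0)
    (hleft : ∀ {B : ℝ} {m g g0 : ℕ} {c : ℕ → ℂ} {e : ℂ} {T τ ξ u M a : ℝ}
      (h : LF B m g g0 c e T τ ξ u M a) (J : ℕ) (t : ℂ) (ht : t.re ≤ 0),
      (∑ j ∈ range J, ‖Tj B g g0 e T τ j t * Cx B c m (t - (τ + j * T : ℝ))‖ ≤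
        1.01 * M * Real.exp (g0 * t.re / B)) ∧
      ∀ x ≤ m, ∑ j ∈ range J, ‖Tj B g g0 e T τ j t * Cx B c m (t - (τ + j * T : ℝ))‖
        + ‖Tj B g g0 e T τ J t * Cx B c x (t - (τ + J * T : ℝ))‖ ≤
        1.01 * M * Real.exp (g0 * t.re / B))
    (hTj : ∀ {B : ℝ} {m g g0 : ℕ} {c : ℕ → ℂ} {e : ℂ} {T τ ξ u M a : ℝ}
      (h : LF B m g g0 c e T τ ξ u M a) (t : ℂ) (ht : t.re ≤ 0) (j : ℕ),
      ‖Tj B g g0 e T τ j t‖ ≤ Real.exp (g0 * t.re / B) * (1/1000) ^ j)
    (hlower : ∀ {B : ℝ} {m g g0 : ℕ} {c : ℕ → ℂ} {e : ℂ} {T τ ξ u M a : ℝ}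
      (h : LF B m g g0 c e T τ ξ u M a) (J : ℕ) (s : ℝ) (hs : τ + J * T ≤ s),
      Real.exp (g0 * s / B) ≤ ‖Tj B g g0 e T τ J (s : ℂ)‖)
    (hsec : ∀ (P : Polynomial ℂ) (R B : ℝ) (hR : 0 < R) (hB : 0 < B) (m g g0 : ℕ) (hmg : m < g)
      (hg0 : 1 ≤ g0) (c : ℕ → ℂ) (e : ℂ) (T τ : ℝ) (J q : ℕ),
      (q ≤ P.natDegree → ∀ z : ℂ, ∑ k ∈ range (q+1), (Qp2 P R B m g g0 c e T τ J).coeff k * z^k =
        ∑ k ∈ range (q+1), P.coeff k * z^k) ∧
      (P.natDegree < q →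
        (∃ j ≤ J+1, ∀ t : ℂ, ∑ k ∈ range (q+1), (Qp2 P R B m g g0 c e T τ J).coeff k *
            ((R : ℂ) * Complex.exp (t / B))^k =
          P.eval ((R : ℂ) * Complex.exp (t / B)) +
            P.leadingCoeff * ((R : ℂ) * Complex.exp (t / B))^P.natDegree *
            ∑ i ∈ range j, Tj B g g0 e T τ i t * Cx B c m (t - (τ + i * T : ℝ))) ∨
        (∃ j ≤ J, ∃ x < m, ∀ t : ℂ, ∑ k ∈ range (q+1), (Qp2 P R B m g g0 c e T τ J).coeff k *
            ((R : ℂ) * Complex.exp (t / B))^k =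
          P.eval ((R : ℂ) * Complex.exp (t / B)) +
            P.leadingCoeff * ((R : ℂ) * Complex.exp (t / B))^P.natDegree *
            (∑ i ∈ range j, Tj B g g0 e T τ i t * Cx B c m (t - (τ + i * T : ℝ)) +
              Tj B g g0 e T τ j t * Cx B c x (t - (τ + j * T : ℝ))))))
    (hcoef : ∀ (P : Polynomial ℂ) (R B : ℝ) (hR : 0 < R) (hB : 0 < B) (m g g0 : ℕ) (hmg : m < g)
      (hg0 : 1 ≤ g0) (c : ℕ → ℂ) (hc0 : c 0 = 1) (e : ℂ) (T τ : ℝ) (J : ℕ),
      (∀ k ≤ P.natDegree, (Qp2 P R B m g g0 c e T τ J).coeff k = P.coeff k) ∧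
      (∀ s : ℝ, ‖(Qp2 P R B m g g0 c e T τ J).coeff (P.natDegree + g0 + J * g)‖ *
          (R * Real.exp (s / B))^(P.natDegree + g0 + J * g) =
        ‖P.leadingCoeff‖ * (R * Real.exp (s / B))^P.natDegree * ‖Tj B g g0 e T τ J (s : ℂ)‖) ∧
      (∀ s : ℝ, s ≤ 0 → 0 ≤ τ → 0 ≤ T → ∑ k ∈ Ioc P.natDegree (Qp2 P R B m g g0 c e T τ J).natDegree,
          ‖(Qp2 P R B m g g0 c e T τ J).coeff k‖ * (R * Real.exp (s / B))^k ≤
        ‖P.leadingCoeff‖ * (R * Real.exp (s / B))^P.natDegree *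
          ((∑ j ∈ range (J+1), ‖Tj B g g0 e T τ j (s : ℂ)‖) * ∑ k ∈ range (m+1), ‖c k‖)))
    (hLF : ∀ B0 : ℝ, ∃ (B : ℝ) (m g g0 : ℕ) (c : ℕ → ℂ) (e : ℂ) (T τ ξ u M a : ℝ),
      B0 ≤ B ∧ LF B m g g0 c e T τ ξ u M a ∧ (g : ℝ) ≤ B^2 ∧ (g0 : ℝ) ≤ B ∧ (m : ℝ) ≤ B)
    (ρ K : ℝ) (hρ : 0 < ρ) (hρ2 : ρ ≤ 2) (hK : 0 < K)
    (P : Polynomial ℂ) (hP : 1 ≤ P.natDegree) (hgood : GoodR ρ K P) (M0 : ℝ) :
    ∃ Q : Polynomial ℂ, P.natDegree < Q.natDegree ∧ GoodR ρ K Q ∧
      (∀ k ≤ P.natDegree, Q.coeff k = P.coeff k) ∧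
      (∃ (n : ℕ) (r : ℝ), n ≤ Q.natDegree ∧ M0 ≤ r ∧ 1 ≤ r ∧ r ^ (ρ * (1 + 1/500)) ≤ n ∧
        1 ≤ ‖Q.coeff n‖ * r^n) ∧
      (0 < M0 → ∑ k ∈ Ioc P.natDegree Q.natDegree, ‖Q.coeff k‖ * M0^k ≤ 1 / M0^2) ∧
      (∃ R : ℝ, 1 ≤ R ∧ 2 * M0 ≤ R ∧ (Q.natDegree : ℝ) ≤ R ^ (4 * ρ) ∧
        (0 < M0 → ∑ k ∈ Ioc P.natDegree Q.natDegree, ‖Q.coeff k‖ * (R/2)^k ≤ 1 / M0^2)) := by
  have hP0 : P ≠ 0 := by rintro rfl; simp at hP
  have han : P.leadingCoeff ≠ 0 := Polynomial.leadingCoeff_ne_zero.mpr hP0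
  have hanp : 0 < ‖P.leadingCoeff‖ := norm_pos_iff.mpr han
  obtain ⟨rP, hrP, hρP⟩ := stage2_A P hP
  obtain ⟨c0, hc0, hc0P⟩ := stage2_B P hP ρ K hρ2 hK hgood rP (by linarith)
  have hcoeff0 : P.coeff 0 ≠ 0 := by
    have := hgood 1 le_rfl 0 (stage2_zero hK)
    rw [Finset.sum_range_succ, Finset.sum_range_one] at this
    simpa using this
  obtain ⟨B1, hB1⟩ := decay_aux ρ K hρ hK ‖P.leadingCoeff‖ P.natDegree (M0^2)
  obtain ⟨B, m, g, g0, c, e, T, τ, ξ, u, M, a, hBB, h, hgB, hg0B, hmB⟩ := hLF (max (max B1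
    (max (P.natDegree : ℝ) ((1 / (2 * K))^2))) (
    max ((2 * rP + 2 * |M0| + 1 + 1 / ‖P.leadingCoeff‖) / (2 * K)) (
    max (33 * (‖P.leadingCoeff‖ * |M0| ^ (P.natDegree + 2)))
    (max ((max 1 (2 * K)) ^ (2004 : ℕ)) (33 * (‖P.leadingCoeff‖ * rP ^ P.natDegree) / c0 + 1)))))
  have hBx := le_trans (le_max_left _ _) hBB
  have hB := le_trans (le_max_right _ _) hBB
  have hBB1 : B1 ≤ B := le_trans (le_max_left _ _) hBx
  have hBn : (P.natDegree : ℝ) ≤ B :=
    le_trans (le_max_left _ _) (le_trans (le_max_right _ _) hBx)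
  have hBK : (1 / (2 * K))^2 ≤ B :=
    le_trans (le_max_right _ _) (le_trans (le_max_right _ _) hBx)
  have hBa : (2 * rP + 2 * |M0| + 1 + 1 / ‖P.leadingCoeff‖) / (2 * K) ≤ B :=
    le_trans (le_max_left _ _) hB
  have hB' := le_trans (le_max_right _ _) hB
  have hBb : 33 * (‖P.leadingCoeff‖ * |M0| ^ (P.natDegree + 2)) ≤ B := le_trans (le_max_left _ _) hB'
  have hB'' := le_trans (le_max_right _ _) hB'
  have hBc : (max 1 (2 * K)) ^ (2004 : ℕ) ≤ B := le_trans (le_max_left _ _) hB''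
  have hBd : 33 * (‖P.leadingCoeff‖ * rP ^ P.natDegree) / c0 + 1 ≤ B :=
    le_trans (le_max_right _ _) hB''
  have hBe : 33 * (‖P.leadingCoeff‖ * rP ^ P.natDegree) < c0 * B := by
    have h1 : 33 * (‖P.leadingCoeff‖ * rP ^ P.natDegree) / c0 < B := by linarith
    rw [div_lt_iff₀ hc0] at h1
    linarith
  have hB100 := h.hB
  have hB0 : 0 < B := by linarith
  obtain ⟨R, hRdef⟩ : ∃ R : ℝ, R = (2 * K * B) ^ (2 / ρ) := ⟨_, rfl⟩
  have hKB0 : 0 < 2 * K * B := by positivity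
  have hR0 : 0 < R := by rw [hRdef]; exact Real.rpow_pos_of_pos hKB0 _
  have hR : R ^ (ρ/2) = 2 * K * B := by
    rw [hRdef, ← Real.rpow_mul hKB0.le]
    have : 2 / ρ * (ρ / 2) = 1 := by field_simp
    rw [this, Real.rpow_one]
  have hKBsum : 2 * rP + 2 * |M0| + 1 + 1 / ‖P.leadingCoeff‖ ≤ 2 * K * B := by
    rw [div_le_iff₀ (by positivity)] at hBa
    linarith
  have hanp1 : 0 < 1 / ‖P.leadingCoeff‖ := by positivity
  have hM0abs := abs_nonneg M0
  have hKB1 : 1 ≤ 2 * K * B := by linarith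
  have hRKB : 2 * K * B ≤ R := by
    rw [hRdef]
    calc 2 * K * B = (2 * K * B) ^ (1:ℝ) := (Real.rpow_one _).symm
      _ ≤ (2 * K * B) ^ (2 / ρ) := by
          apply Real.rpow_le_rpow_of_exponent_le hKB1
          rw [le_div_iff₀ hρ]; linarith
  have hRa : 2 * rP ≤ R := by linarith
  have hRb : M0 ≤ R := by have := le_abs_self M0; linarith
  have hRb2 : 2 * M0 ≤ R := by have := le_abs_self M0; linarith
  have hRc : 1 / ‖P.leadingCoeff‖ ≤ R := by linarith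
  have hR1 : 1 ≤ R := by linarith
  have hT0 : 0 < T := by linarith [h.hT]
  have hg01 : 1 ≤ g0 := by
    have h1 := h.hg0
    have h2 : (1 : ℝ) ≤ g0 := by linarith
    exact_mod_cast h2
  obtain ⟨J, hJ⟩ : ∃ J : ℕ, J = ⌊B / T⌋₊ := ⟨_, rfl⟩
  have hJ1 : (J : ℝ) * T ≤ B := by
    have : (J : ℝ) ≤ B / T := by rw [hJ]; exact Nat.floor_le (by positivity)
    rwa [le_div_iff₀ hT0] at this
  have hJ2 : B / T - 1 ≤ J := by
    have := Nat.lt_floor_add_one (B / T)
    rw [← hJ] at this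
    linarith
  have hsecB := hsec P R B hR0 hB0 m g g0 h.hmg hg01 c e T τ J
  have hcoefB := hcoef P R B hR0 hB0 m g g0 h.hmg hg01 c h.hc0 e T τ J
  have hP0t : ∀ t : ℂ, |t.im| ≤ 1 → -a ≤ t.re →
      ‖P.eval ((R : ℂ) * Complex.exp (t / B)) /
        (P.leadingCoeff * ((R : ℂ) * Complex.exp (t / B)) ^ P.natDegree) - 1‖ ≤ 1 / 1000 := by
    intro t _ hta
    obtain ⟨w, hw⟩ : ∃ w : ℂ, w = (R : ℂ) * Complex.exp (t / B) := ⟨_, rfl⟩
    rw [← hw]
    have hwn : ‖w‖ = R * Real.exp (t.re / B) := by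
      rw [hw, norm_mul, Complex.norm_real, Real.norm_eq_abs, abs_of_pos hR0, Complex.norm_exp,
        Complex.div_ofReal_re]
    have h2 : -(1 / 8) ≤ t.re / B := by
      rw [le_div_iff₀ hB0]
      have := h.haB
      linarith
    have h3 := Real.add_one_le_exp (t.re / B)
    have h4 : rP ≤ ‖w‖ := by rw [hwn]; nlinarith
    have hw0 : w ≠ 0 := by
      intro h5; rw [h5, norm_zero] at h4; linarith
    have hne : P.leadingCoeff * w ^ P.natDegree ≠ 0 := mul_ne_zero han (pow_ne_zero _ hw0)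
    have h5 := hρP w h4
    rw [div_sub_one hne, norm_div, div_le_iff₀ (norm_pos_iff.mpr hne)]
    linarith
  -- general bound for the sum of the new coefficients
  have hgen : ∀ M1 : ℝ, 0 < M1 → 2 * M1 ≤ R →
      ∑ k ∈ Ioc P.natDegree (Qp2 P R B m g g0 c e T τ J).natDegree,
        ‖(Qp2 P R B m g g0 c e T τ J).coeff k‖ * M1^k ≤
      ‖P.leadingCoeff‖ * M1 ^ P.natDegree * (1.01 * Real.exp (-(B / 4)) * B) := by
    intro M1 hM1 hM1R
    obtain ⟨s, hs⟩ : ∃ s : ℝ, s = B * Real.log (M1 / R) := ⟨_, rfl⟩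
    have hMR : M1 / R ≤ 1 / 2 := by
      rw [div_le_div_iff₀ hR0 two_pos]; linarith
    have hMRpos : 0 < M1 / R := by positivity
    have hsB : s / B = Real.log (M1 / R) := by
      rw [hs]; field_simp
    have hsB2 : s / B ≤ -(1/2) := by
      rw [hsB, Real.log_le_iff_le_exp hMRpos]
      have := Real.add_one_le_exp (-(1/2) : ℝ)
      linarith
    have hs0 : s ≤ 0 := by
      rw [div_le_iff₀ hB0] at hsB2
      nlinarith
    have hRM : R * Real.exp (s / B) = M1 := by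
      rw [hsB, Real.exp_log hMRpos]; field_simp
    have h3 := hcoefB.2.2 s hs0 h.hτ hT0.le
    rw [hRM] at h3
    refine le_trans h3 ?_
    have hg0 := h.hg0
    have hE : Real.exp (g0 * s / B) ≤ Real.exp (-(B / 4)) := by
      apply Real.exp_le_exp.mpr
      rw [mul_div_assoc]
      nlinarith
    have hsumT : ∑ j ∈ range (J+1), ‖Tj B g g0 e T τ j (s : ℂ)‖ ≤ 1.01 * Real.exp (-(B / 4)) := by
      calc ∑ j ∈ range (J+1), ‖Tj B g g0 e T τ j (s : ℂ)‖
          ≤ ∑ j ∈ range (J+1), Real.exp (-(B / 4)) * (1/1000) ^ j := by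
            refine Finset.sum_le_sum fun j _ => ?_
            have h4 := hTj h (s : ℂ) (by simpa using hs0) j
            rw [Complex.ofReal_re] at h4
            exact le_trans h4 (mul_le_mul_of_nonneg_right hE (by positivity))
        _ = Real.exp (-(B / 4)) * ∑ j ∈ range (J+1), (1/1000 : ℝ) ^ j := by rw [Finset.mul_sum]
        _ ≤ Real.exp (-(B / 4)) * 1.01 := by
            apply mul_le_mul_of_nonneg_left _ (Real.exp_pos _).le
            have h5 : (0:ℝ) < (1/1000 : ℝ) ^ (J+1) := by positivity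
            have h6 := stage2_geom (J+1)
            linarith
        _ = _ := by ring
    have hcB : ∑ k ∈ range (m+1), ‖c k‖ ≤ B := le_trans h.hM h.hMB
    have hc0' : 0 ≤ ∑ k ∈ range (m+1), ‖c k‖ := Finset.sum_nonneg fun k _ => norm_nonneg _
    have h8 : (∑ j ∈ range (J+1), ‖Tj B g g0 e T τ j (s : ℂ)‖) * ∑ k ∈ range (m+1), ‖c k‖ ≤
        1.01 * Real.exp (-(B / 4)) * B :=
      mul_le_mul hsumT hcB hc0' (by positivity)
    exact mul_le_mul_of_nonneg_left h8 (by positivity)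
  have hdeg := natDegree_Qp2_le P R B m g g0 c e T τ J
  refine ⟨Qp2 P R B m g g0 c e T τ J, ?_, ?_, hcoefB.1, ?_, ?_, ?_⟩
  rotate_left
  · -- Good
    intro q hq z hzF
    rcases le_or_gt q P.natDegree with hqn | hqn
    · rw [(hsecB q).1 hqn z]
      exact hgood q hq z hzF
    · by_cases hz0 : z = 0
      · rw [hz0, Finset.sum_range_succ']
        simp only [pow_succ, mul_zero, Finset.sum_const_zero, zero_add, pow_zero, mul_one]
        rw [hcoefB.1 0 (Nat.zero_le _)]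
        exact hcoeff0
      · rcases (hsecB q).2 hqn with ⟨j, hj, hrep⟩ | ⟨j, hj, x, hx, hrep⟩
        · obtain ⟨t, ht, hne⟩ := stage2_sec hR0 hρ hρ2 hK hR h P hP rP c0 hrP hc0 hρP hc0P hRa hBe z hz0 hzF
            (fun t => ∑ i ∈ range j, Tj B g g0 e T τ i t * Cx B c m (t - (τ + i * T : ℝ)))
            (fun t h1 h2 => (hstrip h (fun t => P.eval ((R : ℂ) * Complex.exp (t / B)) /
              (P.leadingCoeff * ((R : ℂ) * Complex.exp (t / B)) ^ P.natDegree)) hP0t j t h1 h2).1)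
            (fun t h1 => le_trans (norm_sum_le _ _) (hleft h j t h1).1)
          have h3 := hrep t
          rw [ht] at h3
          rw [h3]
          exact hne
        · obtain ⟨t, ht, hne⟩ := stage2_sec hR0 hρ hρ2 hK hR h P hP rP c0 hrP hc0 hρP hc0P hRa hBe z hz0 hzF
            (fun t => ∑ i ∈ range j, Tj B g g0 e T τ i t * Cx B c m (t - (τ + i * T : ℝ)) +
              Tj B g g0 e T τ j t * Cx B c x (t - (τ + j * T : ℝ)))
            (fun t h1 h2 => by
              have h3 := (hstrip h (fun t => P.eval ((R : ℂ) * Complex.exp (t / B)) /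
                (P.leadingCoeff * ((R : ℂ) * Complex.exp (t / B)) ^ P.natDegree)) hP0t j t h1 h2).2
                x hx
              rw [add_assoc] at h3
              exact h3)
            (fun t h1 => le_trans (norm_add_le _ _) (le_trans (add_le_add (norm_sum_le _ _) le_rfl)
              ((hleft h j t h1).2 x hx.le)))
          have h3 := hrep t
          rw [ht] at h3
          rw [h3]
          exact hne
  · -- final part
    obtain ⟨s, hs⟩ : ∃ s : ℝ, s = τ + J * T := ⟨_, rfl⟩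
    have hs0 : 0 ≤ s := by
      rw [hs]
      have := h.hτ
      positivity
    have hs2 : s ≤ 2 * B := by rw [hs]; linarith [h.hτB]
    obtain ⟨r, hr⟩ : ∃ r : ℝ, r = R * Real.exp (s / B) := ⟨_, rfl⟩
    have hrB : R ≤ r := by
      rw [hr]
      have := Real.one_le_exp (show 0 ≤ s / B by positivity)
      nlinarith
    have hr0 : 0 < r := by linarith
    have hr1 : 1 ≤ r := by linarith
    have hlow := hlower h J s (le_of_eq hs.symm)
    have hid := hcoefB.2.1 s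
    rw [← hr] at hid
    have hge : ‖P.leadingCoeff‖ * r ≤
        ‖(Qp2 P R B m g g0 c e T τ J).coeff (P.natDegree + g0 + J * g)‖ *
          r ^ (P.natDegree + g0 + J * g) := by
      rw [hid]
      have h1 : 1 ≤ ‖Tj B g g0 e T τ J (s : ℂ)‖ :=
        le_trans (Real.one_le_exp (by positivity)) hlow
      have h2 : r ≤ r ^ P.natDegree := by
        calc r = r ^ 1 := (pow_one r).symm
          _ ≤ _ := pow_le_pow_right₀ hr1 hP
      have h3 : ‖P.leadingCoeff‖ * r ≤ ‖P.leadingCoeff‖ * r ^ P.natDegree :=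
        mul_le_mul_of_nonneg_left h2 hanp.le
      have h4 : 0 ≤ ‖P.leadingCoeff‖ * r ^ P.natDegree := by positivity
      nlinarith
    have hone : 1 ≤ ‖P.leadingCoeff‖ * r := by
      rw [div_le_iff₀ hanp] at hRc
      nlinarith
    refine ⟨P.natDegree + g0 + J * g, r, ?_, by linarith, hr1, ?_, by linarith⟩
    · apply Polynomial.le_natDegree_of_ne_zero
      intro h0
      rw [h0, norm_zero, zero_mul] at hge
      nlinarith [mul_pos hanp hr0]
    · refine le_trans ?_ (le_trans h.growth ?_)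
      · have h1 : r ≤ R * Real.exp 2 := by
          rw [hr]
          refine mul_le_mul_of_nonneg_left (Real.exp_le_exp.mpr ?_) hR0.le
          rw [div_le_iff₀ hB0]; linarith
        have hRρ : R ^ ρ = (2 * K * B) ^ 2 := by
          rw [← hR, ← Real.rpow_natCast (R ^ (ρ/2)) 2, ← Real.rpow_mul hR0.le]
          congr 1; push_cast; ring
        have hL1 : (1:ℝ) ≤ max 1 (2 * K) := le_max_left _ _
        have hL2 : 2 * K ≤ max 1 (2 * K) := le_max_right _ _
        have hKB : (2 * K) ^ (2 * (1 + 1/500) : ℝ) ≤ B ^ (1/1000 : ℝ) := by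
          calc (2 * K) ^ (2 * (1 + 1/500) : ℝ) ≤ (max 1 (2 * K)) ^ (2 * (1 + 1/500) : ℝ) :=
                Real.rpow_le_rpow (by positivity) hL2 (by norm_num)
            _ = ((max 1 (2 * K)) ^ (2004 : ℕ)) ^ (1/1000 : ℝ) := by
                rw [← Real.rpow_natCast, ← Real.rpow_mul (by linarith)]
                congr 1; norm_num
            _ ≤ B ^ (1/1000 : ℝ) := Real.rpow_le_rpow (by positivity) hBc (by norm_num)
        have hexp1 : (Real.exp 2) ^ (ρ * (1 + 1/500)) ≤ (Real.exp 3) ^ (2 + 1/200 : ℝ) := by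
          rw [← Real.exp_mul, ← Real.exp_mul]
          apply Real.exp_le_exp.mpr
          nlinarith
        calc r ^ (ρ * (1 + 1/500)) ≤ (R * Real.exp 2) ^ (ρ * (1 + 1/500)) :=
              Real.rpow_le_rpow hr0.le h1 (by positivity)
          _ = (R ^ ρ) ^ (1 + 1/500 : ℝ) * (Real.exp 2) ^ (ρ * (1 + 1/500)) := by
              rw [Real.mul_rpow hR0.le (Real.exp_pos _).le, Real.rpow_mul hR0.le]
          _ = ((2 * K) ^ (2 * (1 + 1/500) : ℝ) * B ^ (2 * (1 + 1/500) : ℝ))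
                * (Real.exp 2) ^ (ρ * (1 + 1/500)) := by
              rw [hRρ, ← Real.rpow_natCast (2 * K * B) 2, ← Real.rpow_mul hKB0.le,
                ← Real.mul_rpow (by positivity) hB0.le]
              norm_num
          _ ≤ (B ^ (1/1000 : ℝ) * B ^ (2 * (1 + 1/500) : ℝ)) * (Real.exp 3) ^ (2 + 1/200 : ℝ) := by
              gcongr
          _ = (Real.exp 3 * B) ^ (2 + 1/200 : ℝ) := by
              rw [← Real.rpow_add hB0, Real.mul_rpow (Real.exp_pos _).le hB0.le, mul_comm]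
              norm_num
      push_cast
      have h2 : (B / T - 2) * (g : ℝ) ≤ (J : ℝ) * g :=
        mul_le_mul_of_nonneg_right (by linarith) (Nat.cast_nonneg g)
      have h3 : (0 : ℝ) ≤ (P.natDegree : ℝ) := Nat.cast_nonneg _
      have h4 : (0 : ℝ) ≤ (g0 : ℝ) := Nat.cast_nonneg _
      linarith
  · -- coefficient sum
    intro hM0
    refine le_trans (hgen M0 hM0 hRb2) ?_
    have h5 : B ^ 2 / 32 ≤ Real.exp (B / 4) := by
      have := Real.quadratic_le_exp_of_nonneg (show 0 ≤ B / 4 by positivity)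
      nlinarith
    have h6 : Real.exp (-(B / 4)) * Real.exp (B / 4) = 1 := by rw [← Real.exp_add]; simp
    have h7 : B * (B * Real.exp (-(B / 4))) ≤ 32 := by
      have h8 := Real.exp_pos (-(B / 4))
      nlinarith
    have h9 : 33 * (‖P.leadingCoeff‖ * M0 ^ (P.natDegree + 2)) ≤ B := by
      rwa [abs_of_pos hM0] at hBb
    rw [le_div_iff₀ (by positivity)]
    calc ‖P.leadingCoeff‖ * M0 ^ P.natDegree * (1.01 * Real.exp (-(B / 4)) * B) * M0 ^ 2
      _ = (33 * (‖P.leadingCoeff‖ * M0 ^ (P.natDegree + 2))) * (1.01 / 33 * (B * Real.exp (-(B / 4)))) := by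
          rw [pow_add]; ring
      _ ≤ B * (1.01 / 33 * (B * Real.exp (-(B / 4)))) := by
          apply mul_le_mul_of_nonneg_right h9 (by positivity)
      _ = 1.01 / 33 * (B * (B * Real.exp (-(B / 4)))) := by ring
      _ ≤ 1 := by linarith
  · -- the new part
    refine ⟨R, hR1, hRb2, ?_, ?_⟩
    · exact degree_aux hρ hK hB100 hR0 hR hBK hBn hg0B hgB hmB
        (show (J : ℝ) ≤ B by
          have h60 := h.hT
          have hJ0 : (0:ℝ) ≤ J := Nat.cast_nonneg J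
          nlinarith) hdeg
    · intro hM0
      refine le_trans (hgen (R/2) (by positivity) (by linarith)) ?_
      have h1 := hB1 B hBB1
      rw [← hRdef] at h1
      rw [le_div_iff₀ (by positivity)]
      exact h1
  · -- degree
    obtain ⟨s, hs⟩ : ∃ s : ℝ, s = τ + J * T := ⟨_, rfl⟩
    have hlow := hlower h J s (le_of_eq hs.symm)
    have hid := hcoefB.2.1 s
    have hne : (Qp2 P R B m g g0 c e T τ J).coeff (P.natDegree + g0 + J * g) ≠ 0 := by
      intro h0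
      rw [h0, norm_zero, zero_mul] at hid
      have h1 : 0 < ‖Tj B g g0 e T τ J (s : ℂ)‖ := lt_of_lt_of_le (Real.exp_pos _) hlow
      have h2 : 0 < ‖P.leadingCoeff‖ * (R * Real.exp (s / B)) ^ P.natDegree *
          ‖Tj B g g0 e T τ J (s : ℂ)‖ := by positivity
      linarith
    have := Polynomial.le_natDegree_of_ne_zero hne
    omega

end Pool.Agent.H208R3.SV
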