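import Pool.Agent.Helper118.Width.Main2
import Pool.Agent.H208R3.SV.LFex3
import Pool.Agent.H208R3.SV.Stage3
import Pool.Agent.H208R3.SV.Seq3

set_option linter.all false
open Finset Width Filter

namespace Pool.Agent.H208R3.SV

theorem stage_holds (ρ K : ℝ) (hρ : 0 < ρ) (hρ2 : ρ ≤ 2) (hK : 0 < K) : Stage3 ρ K := by
  intro P hP hgood M0
  exact stage3
    (fun h P0 hP0 J t ht hta => A2.strip_nonvanishing A1.assembly h P0 hP0 J t ht hta)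
    (fun h J t ht => A3.left_bound h J t ht)
    (fun h t ht j => A3.Tj_le h t ht j)
    (fun h J s hs => A3.Tj_lower h J s hs)
    (fun P R B hR hB m g g0 hmg hg0 c e T τ J q =>
      G4.Qp2_sections P R B hR hB m g g0 hmg hg0 c e T τ J q)
    (fun P R B hR hB m g g0 hmg hg0 c hc0 e T τ J =>
      G4.Qp2_coeffs P R B hR hB m g g0 hmg hg0 c hc0 e T τ J)
    exists_LF' ρ K hρ hρ2 hK P hP hgood M0

theorem upper_aux (ρ : ℝ) (hρ : 0 < ρ) (r : ℝ) (hr : (2:ℝ) ^ (4 * ρ + 1) + 2 ≤ r) :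
    1 + r + 2 * (2 * r) ^ ((2 * r) ^ (4 * ρ)) ≤ Real.exp (r ^ (4 * ρ + 2)) := by
  have h20 : (0:ℝ) < (2:ℝ) ^ (4 * ρ + 1) := Real.rpow_pos_of_pos two_pos _
  have hr2 : 2 ≤ r := by linarith
  have hr0 : 0 < r := by linarith
  have h1 : (2 * r) ^ ((2 * r) ^ (4 * ρ)) ≤ Real.exp ((2 * r) ^ (4 * ρ + 1)) := by
    rw [Real.rpow_def_of_pos (by linarith), Real.rpow_add (by linarith), Real.rpow_one]
    apply Real.exp_le_exp.2
    have h2 : Real.log (2 * r) ≤ 2 * r := (Real.log_le_sub_one_of_pos (by linarith)).trans (by linarith)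
    have h3 : 0 ≤ (2 * r) ^ (4 * ρ) := Real.rpow_nonneg (by linarith) _
    rw [mul_comm]
    exact mul_le_mul_of_nonneg_left h2 h3
  have h2 : 1 + r ≤ Real.exp ((2 * r) ^ (4 * ρ + 1)) := by
    have h3 : r ≤ (2 * r) ^ (4 * ρ + 1) := by
      calc r ≤ 2 * r := by linarith
        _ = (2 * r) ^ (1 : ℝ) := (Real.rpow_one _).symm
        _ ≤ (2 * r) ^ (4 * ρ + 1) :=
          Real.rpow_le_rpow_of_exponent_le (by linarith) (by linarith)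
    have h4 := Real.add_one_le_exp ((2 * r) ^ (4 * ρ + 1))
    linarith
  have h3 : 2 + (2 * r) ^ (4 * ρ + 1) ≤ r ^ (4 * ρ + 2) := by
    have e1 : r ^ (4 * ρ + 2) = r * r ^ (4 * ρ + 1) := by
      rw [show 4 * ρ + 2 = 1 + (4 * ρ + 1) by ring, Real.rpow_add hr0, Real.rpow_one]
    have e2 : (2 * r) ^ (4 * ρ + 1) = (2:ℝ) ^ (4 * ρ + 1) * r ^ (4 * ρ + 1) :=
      Real.mul_rpow (by norm_num) hr0.le
    have e3 : 1 ≤ r ^ (4 * ρ + 1) := Real.one_le_rpow (by linarith) (by linarith)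
    rw [e1, e2]
    nlinarith
  have h4 : Real.exp (2 + (2 * r) ^ (4 * ρ + 1)) ≤ Real.exp (r ^ (4 * ρ + 2)) :=
    Real.exp_le_exp.2 h3
  have h5 : 3 ≤ Real.exp 2 := by
    have := Real.add_one_le_exp 2
    linarith
  have h6 := Real.exp_pos ((2 * r) ^ (4 * ρ + 1))
  rw [Real.exp_add] at h4
  nlinarith

theorem maxMod_le (a : ℕ → ℂ) (ρ : ℝ)
    (hg : ∀ r : ℝ, 1 ≤ r → ∀ n : ℕ,
      ∑ k ∈ range n, ‖a k‖ * r ^ k ≤ 1 + r + 2 * (2 * r) ^ ((2 * r) ^ (4 * ρ)))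
    (r : ℝ) (hr : 1 ≤ r) : maxMod a r ≤ 1 + r + 2 * (2 * r) ^ ((2 * r) ^ (4 * ρ)) := by
  have hs : Summable fun k => ‖a k‖ * r ^ k :=
    summable_of_sum_range_le (fun k => by positivity) (hg r hr)
  unfold maxMod
  apply csSup_le
  · refine ⟨_, ⟨(r : ℂ), ?_, rfl⟩⟩
    simp [abs_of_nonneg (show (0:ℝ) ≤ r by linarith)]
  · rintro _ ⟨z, hz, rfl⟩
    have hz' : ‖z‖ = r := by simpa using hz
    have h1 : ∀ k, ‖a k * z^k‖ = ‖a k‖ * r^k := by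
      intro k
      rw [norm_mul, norm_pow, hz']
    have h2 : Summable (fun k => ‖a k * z^k‖) := hs.congr (fun k => (h1 k).symm)
    calc ‖∑' k, a k * z^k‖ ≤ ∑' k, ‖a k * z^k‖ := norm_tsum_le_tsum_norm h2
      _ = ∑' k, ‖a k‖ * r ^ k := tsum_congr h1
      _ ≤ _ := hs.tsum_le_of_sum_range_le (hg r hr)

theorem order_le (a : ℕ → ℂ) (ρ : ℝ) (hρ : 0 < ρ) (hE : IsEntireSeries a)
    (h1 : ∃ (n : ℕ) (r : ℝ), 1 ≤ r ∧ 1 ≤ ‖a n‖ * r^n)
    (hg : ∀ r : ℝ, 1 ≤ r → ∀ n : ℕ,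
      ∑ k ∈ range n, ‖a k‖ * r ^ k ≤ 1 + r + 2 * (2 * r) ^ ((2 * r) ^ (4 * ρ))) :
    entireOrder a ≤ ((4 * ρ + 2 : ℝ) : EReal) := by
  obtain ⟨n, r0, hr0, hn⟩ := h1
  unfold entireOrder
  refine limsup_le_of_le (by isBoundedDefault) ?_
  filter_upwards [eventually_ge_atTop (max r0 ((2:ℝ) ^ (4 * ρ + 1) + 2))] with r hr
  have hr1 : r0 ≤ r := (le_max_left _ _).trans hr
  have hr2 : (2:ℝ) ^ (4 * ρ + 1) + 2 ≤ r := (le_max_right _ _).trans hr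
  have h20 : (0:ℝ) < (2:ℝ) ^ (4 * ρ + 1) := Real.rpow_pos_of_pos two_pos _
  have hr3 : 2 ≤ r := by linarith
  rw [EReal.coe_le_coe_iff]
  have hM1 : 1 ≤ maxMod a r := by
    have h2 := G2.aux_coeff a hE r (by linarith) n
    have h3 : ‖a n‖ * r0 ^ n ≤ ‖a n‖ * r ^ n :=
      mul_le_mul_of_nonneg_left (pow_le_pow_left₀ (by linarith) hr1 n) (norm_nonneg _)
    linarith
  have hM2 : maxMod a r ≤ Real.exp (r ^ (4 * ρ + 2)) :=
    (maxMod_le a ρ hg r (by linarith)).trans (upper_aux ρ hρ r hr2)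
  have hlog0 : 0 ≤ Real.log (maxMod a r) := Real.log_nonneg hM1
  have hlog : Real.log (maxMod a r) ≤ r ^ (4 * ρ + 2) := by
    rw [Real.log_le_iff_le_exp (by linarith)]
    exact hM2
  have hlr : 0 < Real.log r := Real.log_pos (by linarith)
  rw [div_le_iff₀ hlr]
  rcases hlog0.eq_or_lt with h0 | h0
  · rw [← h0, Real.log_zero]
    positivity
  · have h2 := Real.log_le_log h0 hlog
    rwa [Real.log_rpow (by linarith)] at h2

/-- The counterexample has finite order. -/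
theorem exists_finite_order (ρ K : ℝ) (hρ : 0 < ρ) (hρ2 : ρ ≤ 2) (hK : 0 < K) :
    ∃ a : ℕ → ℂ, (∀ n, 1 ≤ n → ∀ z ∈ Freg ρ K, ∑ k ∈ range (n+1), a k * z^k ≠ 0) ∧
      IsEntireSeries a ∧ ∃ lam : ℝ, ρ < lam ∧ entireOrder a = (lam : EReal) := by
  obtain ⟨a, h1, h2, h3, h4⟩ := exists_sequence3 ρ K hρ (stage_holds ρ K hρ hρ2 hK)
  have hlo := G2.order_large2 (ρ * (1 + 1/500)) a h2 h3
  have hhi := order_le a ρ hρ h2 (by
    obtain ⟨n, r, _, hr, _, hn⟩ := h3 0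
    exact ⟨n, r, hr, hn⟩) h4
  have hne1 : entireOrder a ≠ ⊤ := ne_top_of_le_ne_top (EReal.coe_ne_top _) hhi
  have hne2 : entireOrder a ≠ ⊥ := ne_bot_of_le_ne_bot (EReal.coe_ne_bot _) hlo
  refine ⟨a, h1, h2, (entireOrder a).toReal, ?_, (EReal.coe_toReal hne1 hne2).symm⟩
  rw [← EReal.coe_toReal hne1 hne2, EReal.coe_le_coe_iff] at hlo
  nlinarith

end Pool.Agent.H208R3.SV
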